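import Mathlib

/-!
# Dyadic decomposition estimates for convolutions on a group
-/

namespace Pool.Agent.H23.RDKey

open Finset

set_option linter.unusedSectionVars false

variable {G : Type*} [Group G] [DecidableEq G]

/-- Pairs `(s, x)` in `S × X` with `s * x ∈ Z`. -/
def pairs (S X Z : Finset G) : Finset (G × G) :=
  (S ×ˢ X).filter (fun p => p.1 * p.2 ∈ Z)

lemma mem_pairs {S X Z : Finset G} {p : G × G} :
    p ∈ pairs S X Z ↔ (p.1 ∈ S ∧ p.2 ∈ X) ∧ p.1 * p.2 ∈ Z := by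
  simp [pairs]

/-- The points of `Z` at dyadic level `k` of `f`. -/
noncomputable def lev (f : G → ℝ) (Z : Finset G) (k : ℤ) : Finset G :=
  Z.filter (fun z => 0 < f z ∧ Int.log 2 (f z) = k)

lemma lev_subset (f : G → ℝ) (Z : Finset G) (k : ℤ) : lev f Z k ⊆ Z := Finset.filter_subset _ _

lemma mem_lev {f : G → ℝ} {Z : Finset G} {k : ℤ} {z : G} :
    z ∈ lev f Z k ↔ z ∈ Z ∧ 0 < f z ∧ Int.log 2 (f z) = k := by
  simp [lev]

lemma zpow_log_le {t : ℝ} (ht : 0 < t) : (2 : ℝ) ^ (Int.log 2 t) ≤ t := by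
  have := Int.zpow_log_le_self (b := 2) (r := t) (by norm_num) ht
  exact_mod_cast this

lemma lt_zpow_log (t : ℝ) : t < (2 : ℝ) ^ (Int.log 2 t + 1) := by
  have := Int.lt_zpow_succ_log_self (b := 2) (by norm_num) t
  exact_mod_cast this

/-- Level sums are bounded by the square norm. -/
lemma level_sum_le (f : G → ℝ) (Z : Finset G) (K : Finset ℤ) :
    ∑ l ∈ K, ((2 : ℝ) ^ l * (2 : ℝ) ^ l) * ((lev f Z l).card : ℝ) ≤ ∑ z ∈ Z, f z ^ 2 := by
  classical
  have h1 : ∀ l ∈ K, ((2 : ℝ) ^ l * (2 : ℝ) ^ l) * ((lev f Z l).card : ℝ)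
      = ∑ z ∈ Z, if (0 < f z ∧ Int.log 2 (f z) = l) then ((2 : ℝ) ^ l * (2 : ℝ) ^ l) else 0 := by
    intro l _
    rw [← Finset.sum_filter, Finset.sum_const, nsmul_eq_mul, mul_comm]
    rfl
  rw [Finset.sum_congr rfl h1, Finset.sum_comm]
  apply Finset.sum_le_sum
  intro z _
  by_cases hz : 0 < f z
  · have h2 : ∀ l ∈ K, (if (0 < f z ∧ Int.log 2 (f z) = l) then ((2 : ℝ) ^ l * (2 : ℝ) ^ l) else 0)
        ≤ if Int.log 2 (f z) = l then f z ^ 2 else 0 := by
      intro l _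
      by_cases hl : Int.log 2 (f z) = l
      · rw [if_pos ⟨hz, hl⟩, if_pos hl, ← hl, pow_two]
        have := zpow_log_le hz
        exact mul_le_mul this this (by positivity) hz.le
      · rw [if_neg (fun h => hl h.2), if_neg hl]
    refine (Finset.sum_le_sum h2).trans ?_
    rw [Finset.sum_ite_eq]
    split_ifs
    · exact le_rfl
    · positivity
  · have h2 : ∀ l ∈ K, (if (0 < f z ∧ Int.log 2 (f z) = l) then ((2 : ℝ) ^ l * (2 : ℝ) ^ l) else 0)
        = 0 := by
      intro l _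
      rw [if_neg (fun h => hz h.1)]
    rw [Finset.sum_congr rfl h2]
    simp
    positivity

lemma card_pairs_le_left (S X Z : Finset G) : (pairs S X Z).card ≤ S.card * X.card := by
  rw [← Finset.card_product]
  exact Finset.card_filter_le _ _

lemma card_pairs_le_right (S X Z : Finset G) : (pairs S X Z).card ≤ S.card * Z.card := by
  rw [← Finset.card_product]
  apply Finset.card_le_card_of_injOn (fun p => (p.1, p.1 * p.2))
  · intro p hp
    have := mem_pairs.1 hp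
    simp [this.1.1, this.2]
  · intro p _ q _ h
    simp only [Prod.mk.injEq] at h
    ext
    · exact h.1
    · have h2 := h.2
      rw [h.1] at h2
      exact mul_left_cancel h2

lemma card_pairs_le_sqrt (S X Z : Finset G) :
    ((pairs S X Z).card : ℝ) ≤ S.card * √((X.card : ℝ) * Z.card) := by
  have h1 : ((pairs S X Z).card : ℝ) ≤ S.card * X.card := by
    exact_mod_cast card_pairs_le_left S X Z
  have h2 : ((pairs S X Z).card : ℝ) ≤ S.card * Z.card := by
    exact_mod_cast card_pairs_le_right S X Z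
  have h3 : ((pairs S X Z).card : ℝ) ^ 2 ≤ (S.card * √((X.card : ℝ) * Z.card)) ^ 2 := by
    rw [mul_pow, Real.sq_sqrt (by positivity)]
    calc ((pairs S X Z).card : ℝ) ^ 2 = ((pairs S X Z).card : ℝ) * ((pairs S X Z).card : ℝ) := by
          ring
      _ ≤ (S.card * X.card) * (S.card * Z.card) := by
          apply mul_le_mul h1 h2 (by positivity) (by positivity)
      _ = (S.card : ℝ) ^ 2 * (X.card * Z.card) := by ring
  exact (pow_le_pow_iff_left₀ (by positivity) (by positivity) (by norm_num)).1 h3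


/-- First step: from indicator functions to a weight `φ` (in the variable ranging over the ball). -/
theorem phi_step (B : Finset G) (C : ℝ) (hC : 0 ≤ C)
    (hI : ∀ S ⊆ B, ∀ X Z : Finset G,
      ((pairs S X Z).card : ℝ) ^ 2 ≤ C * S.card * (X.card * Z.card))
    (m : ℕ) (hm : B.card ≤ 2 ^ m) (φ : G → ℝ) (hφ : ∀ g, 0 ≤ φ g) (X Z : Finset G) :
    ∑ p ∈ pairs B X Z, φ p.1
      ≤ ((2 * √(C * (m + 1)) + 1) * √(∑ s ∈ B, φ s ^ 2)) * √((X.card : ℝ) * Z.card) := by
  classical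
  set Φ : ℝ := √(∑ s ∈ B, φ s ^ 2) with hΦ
  set R : ℝ := √((X.card : ℝ) * Z.card) with hR
  have hR0 : 0 ≤ R := Real.sqrt_nonneg _
  have hΦ0 : 0 ≤ Φ := Real.sqrt_nonneg _
  have hsum0 : 0 ≤ ∑ s ∈ B, φ s ^ 2 := Finset.sum_nonneg (fun s _ => by positivity)
  have hΦsq : Φ ^ 2 = ∑ s ∈ B, φ s ^ 2 := Real.sq_sqrt hsum0
  have hle : ∀ s ∈ B, φ s ≤ Φ := by
    intro s hs
    have h1 : φ s ^ 2 ≤ Φ ^ 2 := by
      rw [hΦsq]
      exact Finset.single_le_sum (f := fun s => φ s ^ 2) (fun s _ => by positivity) hs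
    exact (pow_le_pow_iff_left₀ (hφ s) hΦ0 (by norm_num)).1 h1
  rcases hΦ0.eq_or_lt with h0 | hpos
  · have : ∑ p ∈ pairs B X Z, φ p.1 ≤ 0 := by
      apply Finset.sum_nonpos
      intro p hp
      have := hle p.1 (mem_pairs.1 hp).1.1
      rw [← h0] at this
      exact this
    rw [← h0]
    simpa using this
  · set k0 : ℤ := Int.log 2 Φ with hk0
    have hk0le : (2 : ℝ) ^ k0 ≤ Φ := zpow_log_le hpos
    -- pointwise bound
    have hpt : ∀ p ∈ pairs B X Z, φ p.1 ≤ (2 : ℝ) ^ (k0 - m) +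
        ∑ k ∈ Finset.Icc (k0 - m) k0, if p.1 ∈ lev φ B k then (2 : ℝ) ^ (k + 1) else 0 := by
      intro p hp
      have hpB := (mem_pairs.1 hp).1.1
      by_cases hsm : φ p.1 < (2 : ℝ) ^ (k0 - m)
      · have : 0 ≤ ∑ k ∈ Finset.Icc (k0 - m) k0,
            if p.1 ∈ lev φ B k then (2 : ℝ) ^ (k + 1) else 0 :=
          Finset.sum_nonneg (fun k _ => by split_ifs <;> positivity)
        linarith
      · push Not at hsm
        have hp0 : 0 < φ p.1 := lt_of_lt_of_le (by positivity) hsm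
        have hk1 : k0 - m ≤ Int.log 2 (φ p.1) := by
          have := (Int.zpow_le_iff_le_log (b := 2) (R := ℝ) (by norm_num) (x := k0 - m) hp0).1
            (by exact_mod_cast hsm)
          exact this
        have hk2 : Int.log 2 (φ p.1) ≤ k0 := Int.log_mono_right hp0 (hle _ hpB)
        have hmem : Int.log 2 (φ p.1) ∈ Finset.Icc (k0 - m) k0 := Finset.mem_Icc.2 ⟨hk1, hk2⟩
        have hs := Finset.single_le_sum (f := fun k : ℤ =>
          if p.1 ∈ lev φ B k then (2 : ℝ) ^ (k + 1) else 0)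
          (fun k _ => by split_ifs <;> positivity) hmem
        have hin : p.1 ∈ lev φ B (Int.log 2 (φ p.1)) := mem_lev.2 ⟨hpB, hp0, rfl⟩
        simp only [if_pos hin] at hs
        have := lt_zpow_log (φ p.1)
        have h3 : (0 : ℝ) < (2 : ℝ) ^ (k0 - m) := by positivity
        linarith
    have hsum := Finset.sum_le_sum hpt
    refine hsum.trans ?_
    rw [Finset.sum_add_distrib, Finset.sum_comm]
    have hA : ∑ p ∈ pairs B X Z, (2 : ℝ) ^ (k0 - m) ≤ Φ * R := by
      rw [Finset.sum_const, nsmul_eq_mul]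
      have h1 : ((pairs B X Z).card : ℝ) ≤ 2 ^ m * R := by
        refine (card_pairs_le_sqrt B X Z).trans ?_
        apply mul_le_mul_of_nonneg_right _ hR0
        exact_mod_cast hm
      calc ((pairs B X Z).card : ℝ) * (2 : ℝ) ^ (k0 - m)
          ≤ (2 ^ m * R) * (2 : ℝ) ^ (k0 - m) := by
            apply mul_le_mul_of_nonneg_right h1 (by positivity)
        _ = (2 : ℝ) ^ k0 * R := by
            rw [zpow_sub₀ (by norm_num), zpow_natCast]
            field_simp
        _ ≤ Φ * R := mul_le_mul_of_nonneg_right hk0le hR0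
    have hB : ∑ k ∈ Finset.Icc (k0 - m) k0, ∑ p ∈ pairs B X Z,
        (if p.1 ∈ lev φ B k then (2 : ℝ) ^ (k + 1) else 0) ≤ (2 * √(C * (m + 1))) * Φ * R := by
      -- bound each inner sum
      have hin : ∀ k ∈ Finset.Icc (k0 - m) k0, ∑ p ∈ pairs B X Z,
          (if p.1 ∈ lev φ B k then (2 : ℝ) ^ (k + 1) else 0)
          ≤ (2 : ℝ) ^ (k + 1) * (√(C * (lev φ B k).card) * R) := by
        intro k _
        rw [← Finset.sum_filter, Finset.sum_const, nsmul_eq_mul, mul_comm]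
        apply mul_le_mul_of_nonneg_left _ (by positivity)
        have hsub : (pairs B X Z).filter (fun p => p.1 ∈ lev φ B k) ⊆ pairs (lev φ B k) X Z := by
          intro p hp
          rw [Finset.mem_filter] at hp
          have := mem_pairs.1 hp.1
          exact mem_pairs.2 ⟨⟨hp.2, this.1.2⟩, this.2⟩
        have h1 : (((pairs B X Z).filter (fun p => p.1 ∈ lev φ B k)).card : ℝ)
            ≤ ((pairs (lev φ B k) X Z).card : ℝ) := by
          exact_mod_cast Finset.card_le_card hsub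
        refine h1.trans ?_
        rw [hR, ← Real.sqrt_mul (by positivity)]
        apply Real.le_sqrt_of_sq_le
        exact hI _ (lev_subset _ _ _) X Z
      refine (Finset.sum_le_sum hin).trans ?_
      have hcs := sq_sum_le_card_mul_sum_sq (s := Finset.Icc (k0 - m) k0)
        (f := fun k : ℤ => (2 : ℝ) ^ (k + 1) * (√(C * (lev φ B k).card) * R))
      have hcard : ((Finset.Icc (k0 - m) k0).card : ℝ) = m + 1 := by
        rw [Int.card_Icc]
        have : k0 + 1 - (k0 - m) = ((m + 1 : ℕ) : ℤ) := by push_cast; ring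
        rw [this, Int.toNat_natCast]
        push_cast
        ring
      have hterm : ∀ k ∈ Finset.Icc (k0 - m) k0,
          ((2 : ℝ) ^ (k + 1) * (√(C * (lev φ B k).card) * R)) ^ 2
          = (4 * C * R ^ 2) * (((2 : ℝ) ^ k * (2 : ℝ) ^ k) * ((lev φ B k).card : ℝ)) := by
        intro k _
        rw [mul_pow, mul_pow, Real.sq_sqrt (by positivity), zpow_add₀ (by norm_num)]
        ring
      rw [hcard, Finset.sum_congr rfl hterm, ← Finset.mul_sum] at hcs
      have hlev := level_sum_le φ B (Finset.Icc (k0 - m) k0)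
      rw [← hΦsq] at hlev
      have hfin : (∑ k ∈ Finset.Icc (k0 - m) k0,
          (2 : ℝ) ^ (k + 1) * (√(C * (lev φ B k).card) * R)) ^ 2
          ≤ ((2 * √(C * (m + 1))) * Φ * R) ^ 2 := by
        refine hcs.trans ?_
        have e1 : ((2 * √(C * (m + 1))) * Φ * R) ^ 2 = (m + 1) * ((4 * C * R ^ 2) * Φ ^ 2) := by
          rw [mul_pow, mul_pow, mul_pow, Real.sq_sqrt (by positivity)]
          ring
        rw [e1]
        apply mul_le_mul_of_nonneg_left _ (by positivity)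
        apply mul_le_mul_of_nonneg_left hlev (by positivity)
      exact (pow_le_pow_iff_left₀ (Finset.sum_nonneg (fun k _ => by positivity))
        (by positivity) (by norm_num)).1 hfin
    calc _ ≤ Φ * R + (2 * √(C * (m + 1))) * Φ * R := add_le_add hA hB
      _ = (2 * √(C * (m + 1)) + 1) * Φ * R := by ring


/-- Second step: from weights in the first variable to the full trilinear form, in AM-GM form. -/
theorem psi_step (B : Finset G) (w : G → ℝ) (hw : ∀ g, 0 ≤ w g) (a : ℝ) (ha : 0 ≤ a)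
    (h : ∀ X Z : Finset G, ∑ p ∈ pairs B X Z, w p.1 ≤ a * √((X.card : ℝ) * Z.card))
    (m : ℕ) (ψ χ : G → ℝ) (hψ : ∀ g, 0 ≤ ψ g) (hχ : ∀ g, 0 ≤ χ g) (X Z : Finset G) :
    ∑ p ∈ pairs B X Z, w p.1 * ψ p.2 * χ (p.1 * p.2)
      ≤ (2 * (2 * m + 1) * a + (∑ s ∈ B, w s) / 2 ^ m)
        * (∑ x ∈ X, ψ x ^ 2 + ∑ z ∈ Z, χ z ^ 2) := by
  classical
  set K : Finset ℤ := X.image (fun x => Int.log 2 (ψ x)) with hK
  set D : Finset ℤ := Finset.Icc (-(m : ℤ)) m with hD
  set M : ℝ := ∑ s ∈ B, w s with hM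
  have hM0 : 0 ≤ M := Finset.sum_nonneg (fun s _ => hw s)
  -- pointwise bound
  have hpt : ∀ p ∈ pairs B X Z, w p.1 * ψ p.2 * χ (p.1 * p.2) ≤
      (w p.1 * ψ p.2 ^ 2 / 2 ^ m + w p.1 * χ (p.1 * p.2) ^ 2 / 2 ^ m) +
      ∑ d ∈ D, ∑ k ∈ K, if (p.2 ∈ lev ψ X k ∧ p.1 * p.2 ∈ lev χ Z (k + d)) then
        w p.1 * ((2 : ℝ) ^ (k + 1) * (2 : ℝ) ^ (k + d + 1)) else 0 := by
    intro p hp
    obtain ⟨⟨hpB, hpX⟩, hpZ⟩ := mem_pairs.1 hp
    have hw0 := hw p.1
    have hψ0 := hψ p.2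
    have hχ0 := hχ (p.1 * p.2)
    have hS : 0 ≤ ∑ d ∈ D, ∑ k ∈ K, if (p.2 ∈ lev ψ X k ∧ p.1 * p.2 ∈ lev χ Z (k + d)) then
        w p.1 * ((2 : ℝ) ^ (k + 1) * (2 : ℝ) ^ (k + d + 1)) else 0 :=
      Finset.sum_nonneg (fun d _ => Finset.sum_nonneg (fun k _ => by
        split_ifs
        · positivity
        · exact le_rfl))
    have hT1 : 0 ≤ w p.1 * ψ p.2 ^ 2 / 2 ^ m := by positivity
    have hT2 : 0 ≤ w p.1 * χ (p.1 * p.2) ^ 2 / 2 ^ m := by positivity
    rcases hψ0.eq_or_lt with h0 | hψp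
    · rw [← h0]
      rw [← h0] at hT1
      simp only [mul_zero, zero_mul]
      positivity
    rcases hχ0.eq_or_lt with h0 | hχp
    · rw [← h0]
      rw [← h0] at hT2
      simp only [mul_zero]
      positivity
    set k := Int.log 2 (ψ p.2) with hk
    set l := Int.log 2 (χ (p.1 * p.2)) with hl
    have hk1 : (2 : ℝ) ^ k ≤ ψ p.2 := zpow_log_le hψp
    have hk2 : ψ p.2 < (2 : ℝ) ^ (k + 1) := lt_zpow_log _
    have hl1 : (2 : ℝ) ^ l ≤ χ (p.1 * p.2) := zpow_log_le hχp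
    have hl2 : χ (p.1 * p.2) < (2 : ℝ) ^ (l + 1) := lt_zpow_log _
    by_cases c1 : l + m + 1 ≤ k
    · -- χ small compared with ψ
      have h1 : χ (p.1 * p.2) ≤ ψ p.2 / 2 ^ m := by
        rw [le_div_iff₀ (by positivity)]
        calc χ (p.1 * p.2) * 2 ^ m ≤ (2 : ℝ) ^ (l + 1) * 2 ^ m := by
              apply mul_le_mul_of_nonneg_right hl2.le (by positivity)
          _ = (2 : ℝ) ^ (l + m + 1) := by
              rw [← zpow_natCast, ← zpow_add₀ (by norm_num)]
              congr 1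
              ring
          _ ≤ (2 : ℝ) ^ k := zpow_le_zpow_right₀ (by norm_num) c1
          _ ≤ ψ p.2 := hk1
      have h2 : w p.1 * ψ p.2 * χ (p.1 * p.2) ≤ w p.1 * ψ p.2 ^ 2 / 2 ^ m := by
        calc w p.1 * ψ p.2 * χ (p.1 * p.2) ≤ w p.1 * ψ p.2 * (ψ p.2 / 2 ^ m) :=
              mul_le_mul_of_nonneg_left h1 (by positivity)
          _ = w p.1 * ψ p.2 ^ 2 / 2 ^ m := by ring
      linarith
    by_cases c2 : k + m + 1 ≤ l
    · have h1 : ψ p.2 ≤ χ (p.1 * p.2) / 2 ^ m := by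
        rw [le_div_iff₀ (by positivity)]
        calc ψ p.2 * 2 ^ m ≤ (2 : ℝ) ^ (k + 1) * 2 ^ m := by
              apply mul_le_mul_of_nonneg_right hk2.le (by positivity)
          _ = (2 : ℝ) ^ (k + m + 1) := by
              rw [← zpow_natCast, ← zpow_add₀ (by norm_num)]
              congr 1
              ring
          _ ≤ (2 : ℝ) ^ l := zpow_le_zpow_right₀ (by norm_num) c2
          _ ≤ χ (p.1 * p.2) := hl1
      have h2 : w p.1 * ψ p.2 * χ (p.1 * p.2) ≤ w p.1 * χ (p.1 * p.2) ^ 2 / 2 ^ m := by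
        calc w p.1 * ψ p.2 * χ (p.1 * p.2)
            ≤ w p.1 * (χ (p.1 * p.2) / 2 ^ m) * χ (p.1 * p.2) := by
              apply mul_le_mul_of_nonneg_right _ hχp.le
              exact mul_le_mul_of_nonneg_left h1 hw0
          _ = w p.1 * χ (p.1 * p.2) ^ 2 / 2 ^ m := by ring
      linarith
    · push Not at c1 c2
      have hd : l - k ∈ D := by
        rw [hD, Finset.mem_Icc]
        constructor <;> linarith
      have hkK : k ∈ K := by
        rw [hK]
        exact Finset.mem_image_of_mem _ hpX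
      have hs1 := Finset.single_le_sum (f := fun d : ℤ => ∑ k ∈ K,
          if (p.2 ∈ lev ψ X k ∧ p.1 * p.2 ∈ lev χ Z (k + d)) then
          w p.1 * ((2 : ℝ) ^ (k + 1) * (2 : ℝ) ^ (k + d + 1)) else 0)
          (fun d _ => Finset.sum_nonneg (fun k _ => by
            split_ifs
            · positivity
            · exact le_rfl)) hd
      have hs2 := Finset.single_le_sum (f := fun k' : ℤ =>
          if (p.2 ∈ lev ψ X k' ∧ p.1 * p.2 ∈ lev χ Z (k' + (l - k))) then
          w p.1 * ((2 : ℝ) ^ (k' + 1) * (2 : ℝ) ^ (k' + (l - k) + 1)) else 0)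
          (fun k' _ => by
            split_ifs
            · positivity
            · exact le_rfl) hkK
      have e : k + (l - k) = l := by ring
      have hin : p.2 ∈ lev ψ X k ∧ p.1 * p.2 ∈ lev χ Z (k + (l - k)) := by
        rw [e]
        exact ⟨mem_lev.2 ⟨hpX, hψp, rfl⟩, mem_lev.2 ⟨hpZ, hχp, rfl⟩⟩
      simp only [if_pos hin] at hs2
      rw [e] at hs2
      have h3 : w p.1 * ψ p.2 * χ (p.1 * p.2) ≤
          w p.1 * ((2 : ℝ) ^ (k + 1) * (2 : ℝ) ^ (l + 1)) := by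
        rw [mul_assoc]
        apply mul_le_mul_of_nonneg_left _ hw0
        exact mul_le_mul hk2.le hl2.le hχp.le (by positivity)
      linarith
  refine (Finset.sum_le_sum hpt).trans ?_
  rw [Finset.sum_add_distrib, Finset.sum_add_distrib]
  -- the two tails
  have hA : ∑ p ∈ pairs B X Z, w p.1 * ψ p.2 ^ 2 / 2 ^ m ≤ (M / 2 ^ m) * ∑ x ∈ X, ψ x ^ 2 := by
    have h1 : ∑ p ∈ pairs B X Z, w p.1 * ψ p.2 ^ 2 / 2 ^ m
        ≤ ∑ p ∈ B ×ˢ X, w p.1 * ψ p.2 ^ 2 / 2 ^ m := by
      apply Finset.sum_le_sum_of_subset_of_nonneg (Finset.filter_subset _ _)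
      intro p _ _
      have := hw p.1
      positivity
    refine h1.trans (le_of_eq ?_)
    rw [Finset.sum_product, hM, Finset.sum_div, Finset.sum_mul_sum]
    apply Finset.sum_congr rfl
    intro s _
    apply Finset.sum_congr rfl
    intro x _
    ring
  have hB : ∑ p ∈ pairs B X Z, w p.1 * χ (p.1 * p.2) ^ 2 / 2 ^ m
      ≤ (M / 2 ^ m) * ∑ z ∈ Z, χ z ^ 2 := by
    have h1 : ∑ p ∈ pairs B X Z, w p.1 * χ (p.1 * p.2) ^ 2 / 2 ^ m
        ≤ ∑ p ∈ B ×ˢ Z, w p.1 * χ p.2 ^ 2 / 2 ^ m := by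
      have h2 : ∑ p ∈ pairs B X Z, w p.1 * χ (p.1 * p.2) ^ 2 / 2 ^ m
          = ∑ q ∈ (pairs B X Z).image (fun p => (p.1, p.1 * p.2)), w q.1 * χ q.2 ^ 2 / 2 ^ m := by
        rw [Finset.sum_image]
        intro p _ q _ h
        simp only [Prod.mk.injEq] at h
        ext
        · exact h.1
        · have h2 := h.2
          rw [h.1] at h2
          exact mul_left_cancel h2
      rw [h2]
      apply Finset.sum_le_sum_of_subset_of_nonneg
      · intro q hq
        rw [Finset.mem_image] at hq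
        obtain ⟨p, hp, rfl⟩ := hq
        have := mem_pairs.1 hp
        simp [this.1.1, this.2]
      · intro p _ _
        have := hw p.1
        positivity
    refine h1.trans (le_of_eq ?_)
    rw [Finset.sum_product, hM, Finset.sum_div, Finset.sum_mul_sum]
    apply Finset.sum_congr rfl
    intro s _
    apply Finset.sum_congr rfl
    intro x _
    ring
  -- the main part
  have hC : ∑ p ∈ pairs B X Z, ∑ d ∈ D, ∑ k ∈ K,
      (if (p.2 ∈ lev ψ X k ∧ p.1 * p.2 ∈ lev χ Z (k + d)) then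
        w p.1 * ((2 : ℝ) ^ (k + 1) * (2 : ℝ) ^ (k + d + 1)) else 0)
      ≤ (2 * (2 * m + 1) * a) * (∑ x ∈ X, ψ x ^ 2 + ∑ z ∈ Z, χ z ^ 2) := by
    rw [Finset.sum_comm]
    have hDd : ∀ d ∈ D, ∑ p ∈ pairs B X Z, ∑ k ∈ K,
        (if (p.2 ∈ lev ψ X k ∧ p.1 * p.2 ∈ lev χ Z (k + d)) then
          w p.1 * ((2 : ℝ) ^ (k + 1) * (2 : ℝ) ^ (k + d + 1)) else 0)
        ≤ (2 * a) * (∑ x ∈ X, ψ x ^ 2 + ∑ z ∈ Z, χ z ^ 2) := by
      intro d _
      rw [Finset.sum_comm]
      have hk : ∀ k ∈ K, ∑ p ∈ pairs B X Z,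
          (if (p.2 ∈ lev ψ X k ∧ p.1 * p.2 ∈ lev χ Z (k + d)) then
            w p.1 * ((2 : ℝ) ^ (k + 1) * (2 : ℝ) ^ (k + d + 1)) else 0)
          ≤ (2 * a) * (((2 : ℝ) ^ k * (2 : ℝ) ^ k) * ((lev ψ X k).card : ℝ)
            + ((2 : ℝ) ^ (k + d) * (2 : ℝ) ^ (k + d)) * ((lev χ Z (k + d)).card : ℝ)) := by
        intro k _
        rw [← Finset.sum_filter, ← Finset.sum_mul]
        have hsub : (pairs B X Z).filter (fun p => p.2 ∈ lev ψ X k ∧
            p.1 * p.2 ∈ lev χ Z (k + d)) ⊆ pairs B (lev ψ X k) (lev χ Z (k + d)) := by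
          intro p hp
          rw [Finset.mem_filter] at hp
          have := mem_pairs.1 hp.1
          exact mem_pairs.2 ⟨⟨this.1.1, hp.2.1⟩, hp.2.2⟩
        have h1 := Finset.sum_le_sum_of_subset_of_nonneg (f := fun p => w p.1) hsub
          (fun p _ _ => hw p.1)
        have h2 := h1.trans (h (lev ψ X k) (lev χ Z (k + d)))
        set u : ℝ := ((lev ψ X k).card : ℝ) with hu
        set v : ℝ := ((lev χ Z (k + d)).card : ℝ) with hv
        have hu0 : 0 ≤ u := by positivity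
        have hv0 : 0 ≤ v := by positivity
        set α : ℝ := (2 : ℝ) ^ k with hα
        set β : ℝ := (2 : ℝ) ^ (k + d) with hβ
        have hα0 : 0 < α := by positivity
        have hβ0 : 0 < β := by positivity
        have e1 : (2 : ℝ) ^ (k + 1) = 2 * α := by
          rw [zpow_add₀ (by norm_num), zpow_one]; ring
        have e2 : (2 : ℝ) ^ (k + d + 1) = 2 * β := by
          rw [zpow_add₀ (by norm_num), zpow_one]; ring
        rw [e1, e2]
        have h3 : α * β * √(u * v) ≤ (α * α * u + β * β * v) / 2 := by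
          rw [Real.sqrt_mul hu0]
          have hsu := Real.mul_self_sqrt hu0
          have hsv := Real.mul_self_sqrt hv0
          nlinarith [sq_nonneg (α * √u - β * √v)]
        calc (∑ i ∈ (pairs B X Z).filter (fun p => p.2 ∈ lev ψ X k ∧
              p.1 * p.2 ∈ lev χ Z (k + d)), w i.1) * (2 * α * (2 * β))
            ≤ (a * √(u * v)) * (2 * α * (2 * β)) :=
              mul_le_mul_of_nonneg_right h2 (by positivity)
          _ = 4 * a * (α * β * √(u * v)) := by ring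
          _ ≤ 4 * a * ((α * α * u + β * β * v) / 2) :=
              mul_le_mul_of_nonneg_left h3 (by positivity)
          _ = 2 * a * (α * α * u + β * β * v) := by ring
      refine (Finset.sum_le_sum hk).trans ?_
      rw [← Finset.mul_sum, Finset.sum_add_distrib]
      apply mul_le_mul_of_nonneg_left _ (by positivity)
      apply add_le_add (level_sum_le ψ X K)
      have := level_sum_le χ Z (K.map (Equiv.addRight d).toEmbedding)
      rw [Finset.sum_map] at this
      exact this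
    refine (Finset.sum_le_sum hDd).trans (le_of_eq ?_)
    rw [Finset.sum_const, nsmul_eq_mul]
    have hcard : (D.card : ℝ) = 2 * m + 1 := by
      rw [hD, Int.card_Icc]
      have : (m : ℤ) + 1 - (-(m : ℤ)) = ((2 * m + 1 : ℕ) : ℤ) := by push_cast; ring
      rw [this, Int.toNat_natCast]
      push_cast
      ring
    rw [hcard]
    ring
  calc _ ≤ ((M / 2 ^ m) * ∑ x ∈ X, ψ x ^ 2 + (M / 2 ^ m) * ∑ z ∈ Z, χ z ^ 2)
        + (2 * (2 * m + 1) * a) * (∑ x ∈ X, ψ x ^ 2 + ∑ z ∈ Z, χ z ^ 2) :=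
        add_le_add (add_le_add hA hB) hC
    _ = _ := by ring


lemma sum_le_sqrt_card (B : Finset G) (w : G → ℝ) (hw : ∀ g, 0 ≤ w g) (m : ℕ)
    (hm : B.card ≤ 2 ^ m) : (∑ s ∈ B, w s) / 2 ^ m ≤ √(∑ s ∈ B, w s ^ 2) := by
  rw [div_le_iff₀ (by positivity)]
  have h1 := sq_sum_le_card_mul_sum_sq (s := B) (f := w)
  have h0 : 0 ≤ ∑ s ∈ B, w s ^ 2 := Finset.sum_nonneg (fun s _ => by positivity)
  have h2 : (∑ s ∈ B, w s) ^ 2 ≤ (√(∑ s ∈ B, w s ^ 2) * 2 ^ m) ^ 2 := by
    refine h1.trans ?_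
    rw [mul_pow, Real.sq_sqrt h0, mul_comm]
    apply mul_le_mul_of_nonneg_left _ h0
    have h3 : (B.card : ℝ) ≤ 2 ^ m := by exact_mod_cast hm
    refine h3.trans ?_
    have : (1 : ℝ) ≤ 2 ^ m := one_le_pow₀ (by norm_num)
    nlinarith
  exact (pow_le_pow_iff_left₀ (Finset.sum_nonneg (fun s _ => hw s)) (by positivity)
    (by norm_num)).1 h2

/-- The main estimate: for nonnegative functions on finite sets. -/
theorem main_estimate (B : Finset G) (C : ℝ) (hC : 1 ≤ C)
    (hI : ∀ S ⊆ B, ∀ X Z : Finset G,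
      ((pairs S X Z).card : ℝ) ^ 2 ≤ C * S.card * (X.card * Z.card))
    (m : ℕ) (hm : B.card ≤ 2 ^ m) (φ ψ : G → ℝ) (hφ : ∀ g, 0 ≤ φ g) (hψ : ∀ g, 0 ≤ ψ g)
    (Z : Finset G) (X : Finset G) (hX : ∀ s ∈ B, ∀ z ∈ Z, s⁻¹ * z ∈ X) :
    ∑ z ∈ Z, (∑ s ∈ B, φ s * ψ (s⁻¹ * z)) ^ 2
      ≤ 1024 * C * (m + 1) ^ 3 * (∑ s ∈ B, φ s ^ 2) * (∑ x ∈ X, ψ x ^ 2) := by
  classical
  set Φ : ℝ := √(∑ s ∈ B, φ s ^ 2) with hΦ
  have hΦ0 : 0 ≤ Φ := Real.sqrt_nonneg _
  have hsum0 : 0 ≤ ∑ s ∈ B, φ s ^ 2 := Finset.sum_nonneg (fun s _ => by positivity)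
  have hΦsq : Φ ^ 2 = ∑ s ∈ B, φ s ^ 2 := Real.sq_sqrt hsum0
  set a : ℝ := (2 * √(C * (m + 1)) + 1) * Φ with ha
  have ha0 : 0 ≤ a := by positivity
  have hphi := phi_step B C (by linarith) hI m hm φ hφ
  set c : G → ℝ := fun z => ∑ s ∈ B, φ s * ψ (s⁻¹ * z) with hc
  have hc0 : ∀ z, 0 ≤ c z := fun z => Finset.sum_nonneg (fun s _ => mul_nonneg (hφ s) (hψ _))
  -- rewriting of the trilinear form
  have htri : ∀ χ : G → ℝ, ∑ p ∈ pairs B X Z, φ p.1 * ψ p.2 * χ (p.1 * p.2)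
      = ∑ z ∈ Z, c z * χ z := by
    intro χ
    have h1 : ∑ p ∈ pairs B X Z, φ p.1 * ψ p.2 * χ (p.1 * p.2)
        = ∑ q ∈ B ×ˢ Z, φ q.1 * ψ (q.1⁻¹ * q.2) * χ q.2 := by
      apply Finset.sum_bij (fun p _ => (p.1, p.1 * p.2))
      · intro p hp
        have := mem_pairs.1 hp
        simp [this.1.1, this.2]
      · intro p _ q _ h
        simp only [Prod.mk.injEq] at h
        ext
        · exact h.1
        · have h2 := h.2
          rw [h.1] at h2
          exact mul_left_cancel h2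
      · intro q hq
        rw [Finset.mem_product] at hq
        refine ⟨(q.1, q.1⁻¹ * q.2), ?_, ?_⟩
        · rw [mem_pairs]
          refine ⟨⟨hq.1, hX _ hq.1 _ hq.2⟩, ?_⟩
          simp [hq.2]
        · simp
      · intro p _
        simp
    rw [h1, Finset.sum_product_right]
    apply Finset.sum_congr rfl
    intro z _
    rw [hc, Finset.sum_mul]
  set A : ℝ := 2 * (2 * m + 1) * a + Φ with hA
  have hA0 : 0 ≤ A := by positivity
  have hmain : ∀ χ : G → ℝ, (∀ g, 0 ≤ χ g) →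
      ∑ z ∈ Z, c z * χ z ≤ A * (∑ x ∈ X, ψ x ^ 2 + ∑ z ∈ Z, χ z ^ 2) := by
    intro χ hχ
    have h1 := psi_step B φ hφ a ha0 (fun X Z => hphi X Z) m ψ χ hψ hχ X Z
    rw [htri χ] at h1
    refine h1.trans ?_
    apply mul_le_mul_of_nonneg_right
    · rw [hA]
      have := sum_le_sqrt_card B φ hφ m hm
      linarith
    · exact add_nonneg (Finset.sum_nonneg (fun _ _ => by positivity))
        (Finset.sum_nonneg (fun _ _ => by positivity))
  set Ψ : ℝ := ∑ x ∈ X, ψ x ^ 2 with hΨ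
  have hΨ0 : 0 ≤ Ψ := Finset.sum_nonneg (fun _ _ => by positivity)
  set E : ℝ := ∑ z ∈ Z, c z ^ 2 with hE
  have hE0 : 0 ≤ E := Finset.sum_nonneg (fun _ _ => by positivity)
  -- scaling
  have hscale : ∀ t : ℝ, 0 ≤ t → t * E ≤ A * (Ψ + t ^ 2 * E) := by
    intro t ht
    have h1 := hmain (fun z => t * c z) (fun z => mul_nonneg ht (hc0 z))
    have e1 : ∑ z ∈ Z, c z * (t * c z) = t * E := by
      rw [hE, Finset.mul_sum]
      apply Finset.sum_congr rfl
      intro z _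
      ring
    have e2 : ∑ z ∈ Z, (t * c z) ^ 2 = t ^ 2 * E := by
      rw [hE, Finset.mul_sum]
      apply Finset.sum_congr rfl
      intro z _
      ring
    rw [e1, e2] at h1
    exact h1
  have hfin : E ≤ 4 * A ^ 2 * Ψ := by
    rcases hA0.eq_or_lt with h0 | hAp
    · have := hscale 1 (by norm_num)
      rw [← h0] at this
      rw [← h0]
      linarith
    · have h1 := hscale (1 / (2 * A)) (by positivity)
      have e1 : A * (Ψ + (1 / (2 * A)) ^ 2 * E) = A * Ψ + 1 / (4 * A) * E := by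
        field_simp
        ring
      rw [e1] at h1
      have h2 : 1 / (4 * A) * E ≤ A * Ψ := by
        have e2 : 1 / (2 * A) * E = 1 / (4 * A) * E + 1 / (4 * A) * E := by
          field_simp
          ring
        linarith
      have h3 : E = 4 * A * (1 / (4 * A) * E) := by
        field_simp
      rw [h3]
      calc 4 * A * (1 / (4 * A) * E) ≤ 4 * A * (A * Ψ) :=
            mul_le_mul_of_nonneg_left h2 (by positivity)
        _ = 4 * A ^ 2 * Ψ := by ring
  -- numerical bound on `A`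
  have hm0 : (0 : ℝ) ≤ m := by positivity
  have hs1 : 1 ≤ √(C * (m + 1)) := by
    rw [Real.one_le_sqrt]
    nlinarith
  have hA1 : A ≤ 16 * ((m + 1) * √(C * (m + 1))) * Φ := by
    rw [hA, ha]
    have : 2 * (2 * (m : ℝ) + 1) * ((2 * √(C * (m + 1)) + 1) * Φ) + Φ
        = (2 * (2 * (m : ℝ) + 1) * (2 * √(C * (m + 1)) + 1) + 1) * Φ := by ring
    rw [this]
    apply mul_le_mul_of_nonneg_right _ hΦ0
    nlinarith
  have hA2 : A ^ 2 ≤ 256 * (C * (m + 1) ^ 3) * Φ ^ 2 := by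
    have h1 : A ^ 2 ≤ (16 * ((m + 1) * √(C * (m + 1))) * Φ) ^ 2 :=
      pow_le_pow_left₀ hA0 hA1 2
    refine h1.trans (le_of_eq ?_)
    rw [mul_pow, mul_pow, mul_pow, Real.sq_sqrt (by positivity)]
    ring
  calc E ≤ 4 * A ^ 2 * Ψ := hfin
    _ ≤ 4 * (256 * (C * (m + 1) ^ 3) * Φ ^ 2) * Ψ := by
      apply mul_le_mul_of_nonneg_right _ hΨ0
      linarith
    _ = 1024 * C * (m + 1) ^ 3 * (∑ s ∈ B, φ s ^ 2) * Ψ := by rw [hΦsq]; ring

end Pool.Agent.H23.RDKey
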